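import Mathlib

set_option autoImplicit false

namespace Pool.Agent.Results.MP_047b76_an.NowhereAlongCurves

open Filter Topology

/-- `q = 1 + 96 d` and `b = 25 q`. -/
noncomputable def q (d : ℕ) : ℝ := 1 + 96 * d
noncomputable def b (d : ℕ) : ℝ := 25 * q d

/-- the `m`-th term. -/
noncomputable def term (d : ℕ) [NeZero d] (m : ℕ) (x : EuclideanSpace ℝ (Fin d)) : ℝ :=
  (1 / 25) ^ m * Real.cos (b d ^ m * x (Fin.ofNat d m))

/-- `f (x) = ∑ 25^(-m) cos (b^m x_(m mod d))`. -/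
noncomputable def f (d : ℕ) [NeZero d] (x : EuclideanSpace ℝ (Fin d)) : ℝ :=
  ∑' m : ℕ, term d m x

variable {d : ℕ} [NeZero d]

lemma q_pos : 0 < q d := by unfold q; positivity
lemma b_pos : 0 < b d := by unfold b; linarith [q_pos (d := d)]
lemma one_lt_q : 1 < q d := by
  unfold q
  have : (0 : ℝ) < d := by exact_mod_cast NeZero.pos d
  linarith

lemma term_le (m : ℕ) (x : EuclideanSpace ℝ (Fin d)) : ‖term d m x‖ ≤ (1 / 25) ^ m := by
  unfold term
  rw [norm_mul, Real.norm_eq_abs, Real.norm_eq_abs, abs_of_pos (by positivity)]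
  calc ((1 : ℝ) / 25) ^ m * |Real.cos (b d ^ m * x (Fin.ofNat d m))| ≤ (1 / 25) ^ m * 1 :=
        mul_le_mul_of_nonneg_left (Real.abs_cos_le_one _) (by positivity)
    _ = _ := mul_one _

lemma summable_geo : Summable fun m : ℕ => ((1 : ℝ) / 25) ^ m :=
  summable_geometric_of_lt_one (by norm_num) (by norm_num)

lemma summable_term (x : EuclideanSpace ℝ (Fin d)) : Summable fun m => term d m x :=
  Summable.of_norm_bounded summable_geo fun m => term_le m x

lemma continuous_f : Continuous (f d) := by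
  refine continuous_tsum (fun m => ?_) summable_geo fun m x => term_le m x
  unfold term
  fun_prop

lemma abs_cos_sub_le (x y : ℝ) : |Real.cos x - Real.cos y| ≤ |x - y| := by
  have := Real.cos_sub_cos x y
  rw [this, abs_mul, abs_mul, abs_neg, abs_two]
  calc 2 * |Real.sin ((x + y) / 2)| * |Real.sin ((x - y) / 2)|
      ≤ 2 * 1 * |(x - y) / 2| := by
        apply mul_le_mul _ Real.abs_sin_le_abs (abs_nonneg _) (by norm_num)
        exact mul_le_mul_of_nonneg_left (Real.abs_sin_le_one _) (by norm_num)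
    _ = |x - y| := by rw [abs_div, abs_two]; ring

lemma coord_le (x : EuclideanSpace ℝ (Fin d)) (i : Fin d) : |x i| ≤ ‖x‖ := by
  rw [← Real.norm_eq_abs]
  exact PiLp.norm_apply_le x i

/-- one of the two shifts moves the cosine. -/
lemma shift (θ φ : ℝ) (hφ : φ = 1 ∨ φ = -1) :
    1 / 3 ≤ |Real.cos (θ + φ * Real.pi) - Real.cos θ| ∨
    1 / 3 ≤ |Real.cos (θ + φ * (Real.pi / 2)) - Real.cos θ| := by
  have h1 : Real.cos (θ + φ * Real.pi) = - Real.cos θ := by
    rcases hφ with rfl | rfl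
    · rw [one_mul, Real.cos_add_pi]
    · rw [neg_one_mul, ← sub_eq_add_neg, Real.cos_sub_pi]
  have h2 : Real.cos (θ + φ * (Real.pi / 2)) = - φ * Real.sin θ := by
    rcases hφ with rfl | rfl
    · rw [one_mul, Real.cos_add_pi_div_two]; ring
    · rw [neg_one_mul, ← sub_eq_add_neg, Real.cos_sub_pi_div_two]; ring
  rw [h1, h2]
  by_contra hcon
  push Not at hcon
  obtain ⟨c1, c2⟩ := hcon
  rw [abs_lt] at c1 c2
  have hs := Real.sin_sq_add_cos_sq θ
  have hφ2 : φ ^ 2 = 1 := by rcases hφ with rfl | rfl <;> norm_num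
  have k1 : Real.cos θ ^ 2 ≤ (1 / 6) ^ 2 := by nlinarith
  have k2 : (φ * Real.sin θ) ^ 2 ≤ (1 / 2) ^ 2 := by nlinarith
  have k3 : (φ * Real.sin θ) ^ 2 = Real.sin θ ^ 2 := by rw [mul_pow, hφ2, one_mul]
  nlinarith

lemma side {I : Set ℝ} (hI : I.OrdConnected) (hne : (interior I).Nonempty) {t₀ : ℝ} (ht : t₀ ∈ I) :
    ∃ τ : ℝ, (τ = 1 ∨ τ = -1) ∧ ∃ ρ > 0, ∀ s : ℝ, 0 ≤ s → s ≤ ρ → t₀ + τ * s ∈ I := by
  obtain ⟨p, hp⟩ := hne
  obtain ⟨ε, hε, hball⟩ := Metric.mem_nhds_iff.1 (mem_interior_iff_mem_nhds.1 hp)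
  have hpI : ∀ z : ℝ, |z - p| < ε → z ∈ I := fun z hz => hball (by
    rw [Metric.mem_ball, Real.dist_eq]; exact hz)
  rcases le_or_gt t₀ p with h | h
  · refine ⟨1, Or.inl rfl, ε / 2 , by positivity, fun s h0 hs => ?_⟩
    have hz : p + ε / 2 ∈ I := hpI _ (by rw [add_sub_cancel_left, abs_of_pos (by positivity)]; linarith)
    exact hI.out ht hz ⟨by linarith, by linarith⟩
  · refine ⟨-1, Or.inr rfl, ε / 2, by positivity, fun s h0 hs => ?_⟩
    have hz : p - ε / 2 ∈ I := hpI _ (by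
      rw [sub_sub_cancel_left, abs_neg, abs_of_pos (by positivity)]; linarith)
    exact hI.out hz ht ⟨by linarith, by linarith⟩

lemma exists_coord (u : EuclideanSpace ℝ (Fin d)) : ∃ i : Fin d, ‖u‖ ≤ d * |u i| := by
  obtain ⟨i, hi⟩ := Finite.exists_max (fun i : Fin d => |u i|)
  refine ⟨i, ?_⟩
  have hd : (1 : ℝ) ≤ d := by exact_mod_cast NeZero.one_le
  have h1 : ‖u‖ ^ 2 ≤ (d * |u i|) ^ 2 := by
    rw [EuclideanSpace.norm_eq, Real.sq_sqrt (by positivity)]
    calc ∑ j, ‖u j‖ ^ 2 ≤ ∑ _j : Fin d, |u i| ^ 2 := by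
          refine Finset.sum_le_sum fun j _ => ?_
          rw [Real.norm_eq_abs]
          exact pow_le_pow_left₀ (abs_nonneg _) (hi j) 2
      _ = d * |u i| ^ 2 := by rw [Finset.sum_const, Finset.card_univ, Fintype.card_fin, nsmul_eq_mul]
      _ ≤ (d * |u i|) ^ 2 := by
          rw [mul_pow]
          apply mul_le_mul_of_nonneg_right _ (by positivity)
          nlinarith
  exact (pow_le_pow_iff_left₀ (norm_nonneg _) (by positivity) two_ne_zero).1 h1

/-- the main estimate: at scale `n` the increment of `f` is large. -/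
lemma increment {x y u : EuclideanSpace ℝ (Fin d)} (hu : u ≠ 0) {n : ℕ} {s : ℝ} (hs : 0 < s)
    {θ' : ℝ} (hsb : ‖u‖ * s * b d ^ n ≤ 4 * d)
    (hlip : ‖y - x‖ ≤ 2 * ‖u‖ * s)
    (hclose : |b d ^ n * y (Fin.ofNat d n) - θ'| ≤ 1 / 12)
    (hbig : 1 / 3 ≤ |Real.cos θ' - Real.cos (b d ^ n * x (Fin.ofNat d n))|) :
    (1 / 25) ^ n * (1 / 12) ≤ |f d y - f d x| := by
  have hun : 0 < ‖u‖ := norm_pos_iff.2 hu
  have hq := one_lt_q (d := d)
  have hqp := q_pos (d := d)
  have hbp := b_pos (d := d)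
  set h : ℕ → ℝ := fun m => term d m y - term d m x with hh
  have hsum : Summable h := (summable_term y).sub (summable_term x)
  have hf : f d y - f d x = ∑' m, h m := by
    unfold f; rw [← (summable_term y).tsum_sub (summable_term x)]
  have hdecomp : ∑' m, h m = (∑ m ∈ Finset.range n, h m) + h n + ∑' m, h (m + (n + 1)) := by
    rw [← hsum.sum_add_tsum_nat_add (n + 1), Finset.sum_range_succ]
  have hm : ∀ m, |h m| ≤ q d ^ m * (2 * ‖u‖ * s) := by
    intro m
    have e1 : h m = (1 / 25) ^ m * (Real.cos (b d ^ m * y (Fin.ofNat d m)) -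
        Real.cos (b d ^ m * x (Fin.ofNat d m))) := by
      simp only [hh, term]; ring
    rw [e1, abs_mul, abs_of_pos (by positivity : (0 : ℝ) < (1 / 25) ^ m)]
    have e2 : |Real.cos (b d ^ m * y (Fin.ofNat d m)) - Real.cos (b d ^ m * x (Fin.ofNat d m))| ≤
        b d ^ m * (2 * ‖u‖ * s) := by
      refine (abs_cos_sub_le _ _).trans ?_
      rw [← mul_sub, abs_mul, abs_of_pos (by positivity)]
      apply mul_le_mul_of_nonneg_left _ (by positivity)
      have := coord_le (y - x) (Fin.ofNat d m)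
      rw [PiLp.sub_apply] at this
      exact this.trans hlip
    calc ((1 : ℝ) / 25) ^ m * |Real.cos (b d ^ m * y (Fin.ofNat d m)) -
          Real.cos (b d ^ m * x (Fin.ofNat d m))| ≤ (1 / 25) ^ m * (b d ^ m * (2 * ‖u‖ * s)) :=
          mul_le_mul_of_nonneg_left e2 (by positivity)
      _ = q d ^ m * (2 * ‖u‖ * s) := by
          rw [← mul_assoc, ← mul_pow]; unfold b; ring
  -- head
  have hhead : |∑ m ∈ Finset.range n, h m| ≤ (1 / 25) ^ n * (1 / 12) := by
    have hd : (0 : ℝ) < d := by exact_mod_cast NeZero.pos d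
    calc |∑ m ∈ Finset.range n, h m| ≤ ∑ m ∈ Finset.range n, |h m| := Finset.abs_sum_le_sum_abs _ _
      _ ≤ ∑ m ∈ Finset.range n, q d ^ m * (2 * ‖u‖ * s) := Finset.sum_le_sum fun m _ => hm m
      _ = (∑ m ∈ Finset.range n, q d ^ m) * (2 * ‖u‖ * s) := by rw [Finset.sum_mul]
      _ = ((q d ^ n - 1) / (q d - 1)) * (2 * ‖u‖ * s) := by rw [geom_sum_eq hq.ne']
      _ ≤ (q d ^ n / (96 * d)) * (2 * ‖u‖ * s) := by
          apply mul_le_mul_of_nonneg_right _ (by positivity)
          have : q d - 1 = 96 * d := by unfold q; ring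
          rw [this]
          apply div_le_div_of_nonneg_right _ (by positivity)
          linarith
      _ = (1 / 25) ^ n * ((‖u‖ * s * b d ^ n) * (2 / (96 * d))) := by
          have : q d ^ n = (1 / 25) ^ n * b d ^ n := by rw [← mul_pow]; unfold b; ring
          rw [this]; ring
      _ ≤ (1 / 25) ^ n * ((4 * d) * (2 / (96 * d))) := by
          apply mul_le_mul_of_nonneg_left _ (by positivity)
          exact mul_le_mul_of_nonneg_right hsb (by positivity)
      _ = (1 / 25) ^ n * (1 / 12) := by field_simp; norm_num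
  -- tail
  have htail : |∑' m, h (m + (n + 1))| ≤ (1 / 25) ^ n * (1 / 12) := by
    have hb : ∀ m, ‖h (m + (n + 1))‖ ≤ 2 * (1 / 25) ^ (n + 1) * (1 / 25) ^ m := by
      intro m
      have h1 := term_le (m + (n + 1)) y
      have h2 := term_le (m + (n + 1)) x
      calc ‖h (m + (n + 1))‖ ≤ ‖term d (m + (n + 1)) y‖ + ‖term d (m + (n + 1)) x‖ := norm_sub_le _ _
        _ ≤ 2 * (1 / 25) ^ (m + (n + 1)) := by linarith
        _ = _ := by rw [pow_add ((1:ℝ)/25) m (n + 1)]; ring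
    have hs2 : Summable fun m : ℕ => 2 * ((1:ℝ) / 25) ^ (n + 1) * (1 / 25) ^ m :=
      summable_geo.mul_left _
    have := tsum_of_norm_bounded hs2.hasSum hb
    rw [Real.norm_eq_abs] at this
    refine this.trans (le_of_eq ?_)
    rw [tsum_mul_left, tsum_geometric_of_lt_one (by norm_num) (by norm_num), pow_succ]
    ring
  -- the term `n`
  have hmain : (1 / 25) ^ n * (1 / 4) ≤ |h n| := by
    have e1 : h n = (1 / 25) ^ n * (Real.cos (b d ^ n * y (Fin.ofNat d n)) -
        Real.cos (b d ^ n * x (Fin.ofNat d n))) := by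
      simp only [hh, term]; ring
    rw [e1, abs_mul, abs_of_pos (by positivity : (0 : ℝ) < (1 / 25) ^ n)]
    apply mul_le_mul_of_nonneg_left _ (by positivity)
    have h1 := abs_cos_sub_le (b d ^ n * y (Fin.ofNat d n)) θ'
    have h2 := abs_sub_le (Real.cos θ') (Real.cos (b d ^ n * y (Fin.ofNat d n)))
      (Real.cos (b d ^ n * x (Fin.ofNat d n)))
    rw [abs_sub_comm (Real.cos θ') (Real.cos (b d ^ n * y (Fin.ofNat d n)))] at h2
    linarith
  rw [hf, hdecomp]
  have h3 : |h n| ≤ |(∑ m ∈ Finset.range n, h m) + h n + ∑' m, h (m + (n + 1))| +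
      |∑ m ∈ Finset.range n, h m| + |∑' m, h (m + (n + 1))| := by
    have : h n = ((∑ m ∈ Finset.range n, h m) + h n + ∑' m, h (m + (n + 1))) -
      (∑ m ∈ Finset.range n, h m) - ∑' m, h (m + (n + 1)) := by ring
    calc |h n| = |((∑ m ∈ Finset.range n, h m) + h n + ∑' m, h (m + (n + 1))) -
          (∑ m ∈ Finset.range n, h m) - ∑' m, h (m + (n + 1))| := by rw [← this]
      _ ≤ _ := (abs_sub _ _).trans (add_le_add_left (abs_sub _ _) _)
  linarith

/-- the strong form: `f ∘ c` has no derivative at a point where `c` has a nonzero derivative. -/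
lemma strong {I : Set ℝ} (hI : I.OrdConnected) (hne : (interior I).Nonempty)
    (c : ℝ → EuclideanSpace ℝ (Fin d)) {t₀ : ℝ} (ht : t₀ ∈ I) {u : EuclideanSpace ℝ (Fin d)}
    (hc : HasDerivWithinAt c u I t₀) (hu : u ≠ 0) :
    ¬ DifferentiableWithinAt ℝ (f d ∘ c) I t₀ := by
  intro hdiff
  obtain ⟨D, hD⟩ : ∃ D, HasDerivWithinAt (f d ∘ c) D I t₀ := ⟨_, hdiff.hasDerivWithinAt⟩
  have hun : 0 < ‖u‖ := norm_pos_iff.2 hu
  have hdpos : (0 : ℝ) < d := by exact_mod_cast NeZero.pos d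
  obtain ⟨τ, hτ, ρ, hρ, hside⟩ := side hI hne ht
  have hτa : |τ| = 1 := by rcases hτ with rfl | rfl <;> simp
  -- expansions
  have h1 : ∀ᶠ t in 𝓝[I] t₀, ‖c t - c t₀ - (t - t₀) • u‖ ≤ (‖u‖ / (48 * d)) * ‖t - t₀‖ :=
    (hasDerivWithinAt_iff_isLittleO.1 hc).def (by positivity)
  have h2 : ∀ᶠ t in 𝓝[I] t₀, ‖(f d ∘ c) t - (f d ∘ c) t₀ - (t - t₀) • D‖ ≤ 1 * ‖t - t₀‖ :=
    (hasDerivWithinAt_iff_isLittleO.1 hD).def one_pos
  obtain ⟨r, hr, hball⟩ := Metric.mem_nhdsWithin_iff.1 (h1.and h2)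
  obtain ⟨i, hi⟩ := exists_coord u
  have hω : 0 < |u i| := by
    by_contra hcon
    push Not at hcon
    have : |u i| = 0 := le_antisymm hcon (abs_nonneg _)
    rw [this, mul_zero] at hi
    linarith
  have hbp := b_pos (d := d)
  have hb1 : 1 < b d := by unfold b; linarith [one_lt_q (d := d)]
  -- choose the scale
  have hlim1 : Tendsto (fun n : ℕ => b d ^ n) atTop atTop := tendsto_pow_atTop_atTop_of_one_lt hb1
  have hlim2 : Tendsto (fun n : ℕ => q d ^ n) atTop atTop :=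
    tendsto_pow_atTop_atTop_of_one_lt one_lt_q
  have hev := (hlim1.eventually_gt_atTop (4 / (|u i| * min ρ r))).and
    (hlim2.eventually_gt_atTop (12 * (|D| + 1) * (4 / |u i|)))
  obtain ⟨n, ⟨hn1, hn2⟩, hni⟩ : ∃ n : ℕ, (4 / (|u i| * min ρ r) < b d ^ n ∧
      12 * (|D| + 1) * (4 / |u i|) < q d ^ n) ∧ Fin.ofNat d n = i := by
    obtain ⟨N, hN⟩ := eventually_atTop.1 hev
    refine ⟨N * d + i, hN _ ?_, ?_⟩
    · have : 1 ≤ d := NeZero.one_le
      nlinarith
    · apply Fin.ext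
      simp [Fin.ofNat, Nat.add_comm, Nat.mod_eq_of_lt i.2]
  have hbn : 0 < b d ^ n := by positivity
  set θ : ℝ := b d ^ n * c t₀ i with hθ
  -- the sign of the motion of the coordinate
  obtain ⟨φ, hφ, hφu⟩ : ∃ φ : ℝ, (φ = 1 ∨ φ = -1) ∧ τ * u i = φ * |u i| := by
    rcases hτ with rfl | rfl <;> rcases le_total 0 (u i) with h | h
    · exact ⟨1, Or.inl rfl, by rw [abs_of_nonneg h]⟩
    · exact ⟨-1, Or.inr rfl, by rw [abs_of_nonpos h]; ring⟩
    · exact ⟨-1, Or.inr rfl, by rw [abs_of_nonneg h]⟩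
    · exact ⟨1, Or.inl rfl, by rw [abs_of_nonpos h]; ring⟩
  have hpi : Real.pi ≤ 4 := Real.pi_le_four
  -- find `s`
  obtain ⟨s, hs0, hs1, hs2⟩ : ∃ s : ℝ, 0 < s ∧ s * (|u i| * b d ^ n) ≤ 4 ∧
      1 / 3 ≤ |Real.cos (θ + b d ^ n * (τ * s * u i)) - Real.cos θ| := by
    rcases shift θ φ hφ with h | h
    · refine ⟨Real.pi / (|u i| * b d ^ n), by positivity, ?_, ?_⟩
      · rw [div_mul_cancel₀ _ (by positivity)]; exact hpi
      · have : b d ^ n * (τ * (Real.pi / (|u i| * b d ^ n)) * u i) = φ * Real.pi := by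
          have h5 : b d ^ n * (τ * (Real.pi / (|u i| * b d ^ n)) * u i) =
            (τ * u i) * (Real.pi / |u i|) := by field_simp
          rw [h5, hφu]; field_simp
        rw [this]; exact h
    · refine ⟨(Real.pi / 2) / (|u i| * b d ^ n), by positivity, ?_, ?_⟩
      · rw [div_mul_cancel₀ _ (by positivity)]; linarith [Real.pi_pos]
      · have : b d ^ n * (τ * ((Real.pi / 2) / (|u i| * b d ^ n)) * u i) = φ * (Real.pi / 2) := by
          have h5 : b d ^ n * (τ * ((Real.pi / 2) / (|u i| * b d ^ n)) * u i) =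
            (τ * u i) * ((Real.pi / 2) / |u i|) := by field_simp
          rw [h5, hφu]; field_simp
        rw [this]; exact h
  have hmin : 0 < min ρ r := lt_min hρ hr
  have hs3 : s < min ρ r := by
    have e1 : 4 < b d ^ n * (|u i| * min ρ r) := by
      rwa [div_lt_iff₀ (by positivity)] at hn1
    by_contra hcon
    push Not at hcon
    have : b d ^ n * (|u i| * min ρ r) ≤ b d ^ n * (|u i| * s) := by
      apply mul_le_mul_of_nonneg_left _ hbn.le
      exact mul_le_mul_of_nonneg_left hcon hω.le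
    nlinarith
  set t : ℝ := t₀ + τ * s with htdef
  have htI : t ∈ I := hside s hs0.le (hs3.trans_le (min_le_left _ _)).le
  have hts : t - t₀ = τ * s := by rw [htdef]; ring
  have htn : ‖t - t₀‖ = s := by
    rw [hts, Real.norm_eq_abs, abs_mul, hτa, one_mul, abs_of_pos hs0]
  have htb : t ∈ Metric.ball t₀ r := by
    rw [Metric.mem_ball, dist_eq_norm, htn]; exact hs3.trans_le (min_le_right _ _)
  obtain ⟨k1, k2⟩ := hball ⟨htb, htI⟩
  rw [htn] at k1 k2
  have hus : ‖u‖ * s * b d ^ n ≤ 4 * d := by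
    calc ‖u‖ * s * b d ^ n ≤ (d * |u i|) * s * b d ^ n := by
          apply mul_le_mul_of_nonneg_right _ hbn.le
          exact mul_le_mul_of_nonneg_right hi hs0.le
      _ = d * (s * (|u i| * b d ^ n)) := by ring
      _ ≤ d * 4 := mul_le_mul_of_nonneg_left hs1 hdpos.le
      _ = _ := by ring
  have hd1 : (1 : ℝ) ≤ d := by exact_mod_cast NeZero.one_le
  have hlip : ‖c t - c t₀‖ ≤ 2 * ‖u‖ * s := by
    have e1 : ‖c t - c t₀‖ ≤ ‖c t - c t₀ - (t - t₀) • u‖ + ‖(t - t₀) • u‖ := by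
      have := norm_add_le (c t - c t₀ - (t - t₀) • u) ((t - t₀) • u)
      rwa [sub_add_cancel] at this
    have e2 : ‖(t - t₀) • u‖ = s * ‖u‖ := by rw [norm_smul, htn]
    have e3 : ‖u‖ / (48 * d) * s ≤ ‖u‖ * s := by
      apply mul_le_mul_of_nonneg_right _ hs0.le
      apply div_le_self hun.le
      linarith
    linarith
  have hclose : |b d ^ n * c t (Fin.ofNat d n) - (θ + b d ^ n * (τ * s * u i))| ≤ 1 / 12 := by
    rw [hni]
    have e1 : b d ^ n * c t i - (θ + b d ^ n * (τ * s * u i)) =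
        b d ^ n * ((c t - c t₀ - (t - t₀) • u) i) := by
      rw [hθ, hts]
      simp only [PiLp.sub_apply, PiLp.smul_apply, smul_eq_mul]
      ring
    rw [e1, abs_mul, abs_of_pos hbn]
    calc b d ^ n * |(c t - c t₀ - (t - t₀) • u) i| ≤ b d ^ n * (‖u‖ / (48 * d) * s) :=
          mul_le_mul_of_nonneg_left ((coord_le _ _).trans k1) hbn.le
      _ = (‖u‖ * s * b d ^ n) * (1 / (48 * d)) := by ring
      _ ≤ (4 * d) * (1 / (48 * d)) := mul_le_mul_of_nonneg_right hus (by positivity)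
      _ = 1 / 12 := by field_simp; norm_num
  have hbig : 1 / 3 ≤ |Real.cos (θ + b d ^ n * (τ * s * u i)) -
      Real.cos (b d ^ n * c t₀ (Fin.ofNat d n))| := by rw [hni]; exact hs2
  have hinc := increment hu hs0 hus hlip hclose hbig
  -- upper bound
  have hup : |f d (c t) - f d (c t₀)| ≤ (|D| + 1) * s := by
    have e1 : |f d (c t) - f d (c t₀)| ≤ ‖(f d ∘ c) t - (f d ∘ c) t₀ - (t - t₀) • D‖ +
        ‖(t - t₀) • D‖ := by
      have := norm_add_le ((f d ∘ c) t - (f d ∘ c) t₀ - (t - t₀) • D) ((t - t₀) • D)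
      rw [sub_add_cancel] at this
      exact this
    have e2 : ‖(t - t₀) • D‖ = s * |D| := by rw [norm_smul, htn, Real.norm_eq_abs]
    linarith
  have hfin : (1 / 25) ^ n * (1 / 12) ≤ (|D| + 1) * s := hinc.trans hup
  have hq : q d ^ n = (1 / 25) ^ n * b d ^ n := by rw [← mul_pow]; unfold b; ring
  have : q d ^ n ≤ 12 * (|D| + 1) * (4 / |u i|) := by
    have e1 : s * b d ^ n ≤ 4 / |u i| := by
      rw [le_div_iff₀ hω]; linarith [mul_comm (s * b d ^ n) |u i|, mul_assoc s |u i| (b d ^ n)]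
    calc q d ^ n = 12 * ((1 / 25) ^ n * (1 / 12)) * b d ^ n := by rw [hq]; ring
      _ ≤ 12 * ((|D| + 1) * s) * b d ^ n := by
          apply mul_le_mul_of_nonneg_right _ hbn.le
          exact mul_le_mul_of_nonneg_left hfin (by norm_num)
      _ = 12 * (|D| + 1) * (s * b d ^ n) := by ring
      _ ≤ 12 * (|D| + 1) * (4 / |u i|) := mul_le_mul_of_nonneg_left e1 (by positivity)
  linarith

/-- **Q1 holds** in every dimension `d ≥ 1`: there is a continuous `f : ℝ^d → ℝ` such that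
`f ∘ c` is nowhere differentiable for every `C^1` unit speed curve `c : I → ℝ^d`. More generally,
`f ∘ c` has no derivative at `t₀ ∈ I` as soon as `c` has a nonzero derivative at `t₀`. -/
theorem result (d : ℕ) (hd : 1 ≤ d) : ∃ f : EuclideanSpace ℝ (Fin d) → ℝ, Continuous f ∧
    (∀ (I : Set ℝ) (c : ℝ → EuclideanSpace ℝ (Fin d)), I.OrdConnected → (interior I).Nonempty →
      ContDiffOn ℝ 1 c I → (∀ t ∈ I, ‖derivWithin c I t‖ = 1) →
      ∀ t₀ ∈ I, ¬ DifferentiableWithinAt ℝ (f ∘ c) I t₀) ∧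
    (∀ (I : Set ℝ) (c : ℝ → EuclideanSpace ℝ (Fin d)), I.OrdConnected → (interior I).Nonempty →
      ∀ t₀ ∈ I, ∀ u : EuclideanSpace ℝ (Fin d), u ≠ 0 → HasDerivWithinAt c u I t₀ →
      ¬ DifferentiableWithinAt ℝ (f ∘ c) I t₀) := by
  haveI : NeZero d := ⟨by omega⟩
  refine ⟨f d, continuous_f, ?_, ?_⟩
  · intro I c hI hne hc hunit t₀ ht
    have h1 : HasDerivWithinAt c (derivWithin c I t₀) I t₀ :=
      ((hc.differentiableOn (by norm_num)) t₀ ht).hasDerivWithinAt
    refine strong hI hne c ht h1 ?_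
    intro h0
    have := hunit t₀ ht
    rw [h0, norm_zero] at this
    exact zero_ne_one this
  · intro I c hI hne t₀ ht u hu hc
    exact strong hI hne c ht hc hu

end Pool.Agent.Results.MP_047b76_an.NowhereAlongCurves
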